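import Pool.Agent.Lib.MP_bc213e_ag.Hyp.Defs

/-!
Divisors, curves and Cech cohomology on a normal projective variety.

`K` is the function field of `X`, and `X` is the closure of the image of `[x i]` in projective
space; `chart x i` is the coordinate ring of the standard affine open set `x i ≠ 0`.
-/

namespace Pool.Agent.Lib.MP_bc213e_ag.OW

open Pool.Agent.Lib.MP_bc213e_ag.Hyp WithZero

/-- Integer valued valuations, written multiplicatively. -/
abbrev ZVal (K : Type) [Field K] : Type := Valuation K (WithZero (Multiplicative ℤ))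

variable {K ι : Type} [Field K] [Algebra ℂ K]

/-- The order of vanishing of `f` along `w`. -/
noncomputable def ord {F : Type} [Field F] (w : ZVal F) (f : F) : ℤ := -log (w f)

/-- The prime divisors of `X`. A Weil divisor is a finitely supported function on them. -/
abbrev Prm (x : ι → Kˣ) : Type := {w : ZVal K // ∃ i, PrimeDiv (chart x i) w}

/-- `O` is the local ring of a point of `X` (closed or not). -/
def IsPoint (x : ι → Kˣ) (O : Subalgebra ℂ K) : Prop :=
  ∃ (i : ι) (p : Ideal (chart x i)), p.IsPrime ∧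
    ∀ z, z ∈ O ↔ ∃ b : chart x i, b ∉ p ∧ (b : K) * z ∈ chart x i

variable {x : ι → Kˣ}

/-- `KX` is the divisor of the rational form `dτ₁ ∧ ⋯ ∧ dτₙ = (jac D u)⁻¹ du₁ ∧ ⋯ ∧ duₙ`, where
`D a = ∂/∂τₐ`: the forms `du₁ ∧ ⋯ ∧ duₙ` with `u` regular at `w` generate the regular forms. -/
def IsCanonical {n : ℕ} (D : Fin n → Derivation ℂ K K) (KX : Prm x →₀ ℤ) : Prop :=
  ∀ w : Prm x, IsLeast {k : ℤ | ∃ u : Fin n → K, (∀ b, w.1 (u b) ≤ 1) ∧ jac D u ≠ 0 ∧
    ord w.1 (jac D u) = k} (-KX w)

/-- `f` is a local equation of `L` at the point with local ring `O`. -/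
def LocEq (L : Prm x →₀ ℤ) (O : Subalgebra ℂ K) (f : Kˣ) : Prop :=
  ∀ w : Prm x, PrimeDiv O w.1 → ord w.1 (f : K) = L w

/-- `L` is locally principal. -/
def IsCartier (L : Prm x →₀ ℤ) : Prop := ∀ O, IsPoint x O → ∃ f, LocEq L O f

/-- The points of the smooth projective curve with function field `F`. -/
def IsPlace {F : Type} [Field F] [Algebra ℂ F] (v : ZVal F) : Prop :=
  (∃ π, v π = exp (-1)) ∧ ∀ c : ℂ, v (algebraMap ℂ F c) ≤ 1

/-- `C` is the local ring of `X` along a curve and `ρ` maps it onto the function field `F` of the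
curve. Then `d` is the degree of the pull-back of `L` to the normalisation of the curve: `f₀` is an
equation of `L` at the generic point of the curve, and for every point `v` of the normalisation `O`
is the local ring of its image in `X` and `f` is an equation of `L` there. -/
def IsDegree (L : Prm x →₀ ℤ) (C : Subalgebra ℂ K) {F : Type} [Field F] [Algebra ℂ F]
    (ρ : C →ₐ[ℂ] F) (d : ℤ) : Prop :=
  ∃ (f₀ : Kˣ) (u : ZVal F → C), LocEq L C f₀ ∧
    (∀ v, IsPlace v → ∃ (O : Subalgebra ℂ K) (f : Kˣ), IsPoint x O ∧ O ≤ C ∧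
      (∀ r : C, (r : K) ∈ O → v (ρ r) ≤ 1) ∧ LocEq L O f ∧ (u v : K) = f / f₀) ∧
    d = ∑ᶠ (v : ZVal F) (_ : IsPlace v), ord v (ρ (u v))

/-- `L` has nonnegative degree on every irreducible curve of `X`. -/
def IsNef (L : Prm x →₀ ℤ) : Prop :=
  ∀ (C : Subalgebra ℂ K) (F : Type) [Field F] [Algebra ℂ F] (ρ : C →ₐ[ℂ] F) (d : ℤ),
    IsPoint x C → Function.Surjective ρ → Algebra.trdeg ℂ F = 1 → IsDegree L C ρ d → 0 ≤ d

/-- Sections of `O(L)` over the intersection of the charts in `σ`; over `X` for `σ = ∅`. -/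
def Sect (L : Prm x →₀ ℤ) (σ : Finset ι) : Submodule ℂ K where
  carrier := {s | ∀ w : Prm x, (∀ i ∈ σ, PrimeDiv (chart x i) w.1) → w.1 s ≤ exp (L w)}
  add_mem' := fun ha hb w hw => (w.1.map_add _ _).trans (max_le (ha w hw) (hb w hw))
  zero_mem' := fun w _ => by simp
  smul_mem' := fun c s hs w hw => by
    obtain ⟨i, hi⟩ := w.2
    rw [Algebra.smul_def, map_mul]
    exact (mul_le_mul' (hi.2.1 _ ((chart x i).algebraMap_mem c)) (hs w hw)).trans_eq (one_mul _)

section cech

variable {N : ℕ}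

/-- Cochains on the sets of `s` charts with values in the sheaf `M`. -/
def coch (M : Finset (Fin N) → Submodule ℂ K) (s : ℕ) : Submodule ℂ (Finset (Fin N) → K) :=
  Submodule.pi Set.univ fun σ => if σ.card = s then M σ else ⊥

/-- The Cech differential. -/
noncomputable def dC (K : Type) [Field K] [Algebra ℂ K] (N : ℕ) :
    (Finset (Fin N) → K) →ₗ[ℂ] (Finset (Fin N) → K) :=
  LinearMap.pi fun σ => ∑ a ∈ σ, (-1 : ℂ) ^ (σ.filter (· < a)).card • LinearMap.proj (σ.erase a)

/-- The dimension of the image of `Z` in the quotient by `B`. -/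
noncomputable def qdim {V : Type} [AddCommGroup V] [Module ℂ V] (Z B : Submodule ℂ V) : ℕ :=
  Module.finrank ℂ (Z.map B.mkQ)

/-- The dimension of the Cech cohomology in degree `p`: cocycles modulo coboundaries. -/
noncomputable def hC (M : Finset (Fin N) → Submodule ℂ K) (p : ℕ) : ℕ :=
  qdim (coch M (p + 1) ⊓ LinearMap.ker (dC K N)) (if p = 0 then ⊥ else (coch M p).map (dC K N))

/-- The Euler characteristic. -/
noncomputable def chi (M : Finset (Fin N) → Submodule ℂ K) : ℤ :=
  ∑ p ∈ Finset.range N, (-1) ^ p * (hC M p : ℤ)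

end cech

/-- At the point with local ring `O` the variety is smooth of dimension `n` with coordinates `ζ`,
and `m Δ = ∑ l, d l • {ζ l = 0}` with `0 ≤ d l < m`. -/
def LogSmoothKlt (n m : ℕ) (Δ : Prm x →₀ ℚ) (O : Subalgebra ℂ K) : Prop :=
  ∃ (ζ : Fin n → O) (d : Fin n → ℕ), (∀ l, d l < m) ∧
    Submodule.span O (Set.range fun l => KaehlerDifferential.D ℂ O (ζ l)) = ⊤ ∧
    ∀ w : Prm x, PrimeDiv O w.1 → m * Δ w = ∑ l, (d l : ℚ) * ord w.1 (ζ l : K)

end Pool.Agent.Lib.MP_bc213e_ag.OW
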