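import Pool.Agent.Lib.MP_bc213e_ag.OW.Defs

/-! Intersection numbers. -/

namespace Pool.Agent.Lib.MP_bc213e_ag.OW

variable {K : Type} [Field K] [Algebra ℂ K] {N : ℕ} {x : Fin N → Kˣ}

/-- The intersection number `L ^ i · H ^ j` on a variety of dimension `i + j`: the mixed difference
of `χ (t L + a H)`, of order `i` in `t` and of order `j` in `a`. -/
noncomputable def inter (L H : Prm x →₀ ℤ) (i j : ℕ) : ℤ :=
  ∑ t ∈ Finset.range (i + 1), ∑ a ∈ Finset.range (j + 1),
    (-1) ^ (i - t + (j - a)) * (i.choose t * j.choose a : ℕ) * chi (Sect (t • L + a • H))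

end Pool.Agent.Lib.MP_bc213e_ag.OW
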