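import Pool.Agent.Lib.MP_bc213e_ag.OW.Defs
import Pool.Agent.Lib.MP_bc213e_ag.KBB.Defs

/-! Internal definitions (not part of the final statements). -/

namespace Pool.Agent.Lib.MP_bc213e_ag.OW

open Pool.Agent.Lib.MP_bc213e_ag.Hyp Pool.Agent.Lib.MP_bc213e_ag.KBB WithZero

variable {K ι : Type} [Field K] [Algebra ℂ K]

/-- `B` is a localisation of `A`. -/
def Loc (A B : Subalgebra ℂ K) : Prop :=
  A ≤ B ∧ ∀ z ∈ B, ∃ b ∈ A, b ≠ 0 ∧ b⁻¹ ∈ B ∧ b * z ∈ A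

/-- The localisation of `A` at the prime `p`. -/
def locAt (A : Subalgebra ℂ K) (p : Ideal A) [hp : p.IsPrime] : Subalgebra ℂ K where
  carrier := {z | ∃ b : A, b ∉ p ∧ (b : K) * z ∈ A}
  mul_mem' := by
    rintro y z ⟨a, ha, h1⟩ ⟨b, hb, h2⟩
    refine ⟨a * b, fun h => (hp.mem_or_mem h).elim ha hb, ?_⟩
    rw [Subalgebra.coe_mul, mul_mul_mul_comm]
    exact A.mul_mem h1 h2
  add_mem' := by
    rintro y z ⟨a, ha, h1⟩ ⟨b, hb, h2⟩
    refine ⟨a * b, fun h => (hp.mem_or_mem h).elim ha hb, ?_⟩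
    have e : ((a * b : A) : K) * (y + z) = b * (a * y) + a * (b * z) := by
      rw [Subalgebra.coe_mul]
      ring
    rw [e]
    exact A.add_mem (A.mul_mem b.2 h1) (A.mul_mem a.2 h2)
  algebraMap_mem' := fun c => ⟨1, fun h => hp.ne_top ((Ideal.eq_top_iff_one p).2 h), by
    rw [Subalgebra.coe_one, one_mul]
    exact A.algebraMap_mem c⟩

theorem mem_locAt {A : Subalgebra ℂ K} {p : Ideal A} [p.IsPrime] {z : K} :
    z ∈ locAt A p ↔ ∃ b : A, b ∉ p ∧ (b : K) * z ∈ A := Iff.rfl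

/-- Global sections of `L + a H`. -/
def Tw {N : ℕ} {x : Fin N → Kˣ} (L : Prm x →₀ ℤ) (a : ℕ) : Submodule ℂ K where
  carrier := {s | ∀ i, s / (x i : K) ^ a ∈ Sect L {i}}
  add_mem' := fun ha hb i => by
    rw [add_div]
    exact add_mem (ha i) (hb i)
  zero_mem' := fun i => by
    rw [zero_div]
    exact zero_mem _
  smul_mem' := fun c s hs i => by
    rw [smul_div_assoc]
    exact Submodule.smul_mem _ c (hs i)

theorem mem_Tw {N : ℕ} {x : Fin N → Kˣ} {L : Prm x →₀ ℤ} {a : ℕ} {s : K} :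
    s ∈ Tw L a ↔ ∀ i, s / (x i : K) ^ a ∈ Sect L {i} := Iff.rfl

/-- The line bundle with generators `γ` on the curve with coordinates `y` has degree `≥ 0`;
`c v` is a chart that contains the centre of the place `v`. -/
def DegNN {F κ : Type} [Field F] [Algebra ℂ F] (y γ : κ → Fˣ) : Prop :=
  ∀ c : ZVal F → κ, (∀ v, IsPlace v → ∀ j, v (y j : F) ≤ v (y (c v) : F)) →
    0 ≤ ∑ᶠ (v : ZVal F) (_ : IsPlace v), log (v (γ (c v) : F))

/-- `(y, γ)` is the restriction of `(x, g)` to an integral subvariety with function field `F`. -/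
structure Sp (x g : ι → Kˣ) {F κ : Type} [Field F] [Algebra ℂ F] (y γ : κ → Fˣ) where
  e : κ → ι
  k₀ : κ
  O : Subalgebra ℂ K
  ρ : K →ₗ[ℂ] F
  gen : IntermediateField.adjoin ℂ (Set.range fun k => (y k : F)) = ⊤
  ρ_one : ρ 1 = 1
  ρ_mul : ∀ a ∈ O, ∀ b ∈ O, ρ (a * b) = ρ a * ρ b
  inv : ∀ r ∈ O, ρ r ≠ 0 → r⁻¹ ∈ O
  le : ∀ k, ∀ r ∈ chart x (e k), r ∈ O
  ρ_x : ∀ k, ρ ((x (e k) : K) / x (e k₀)) = y k
  ρ_x0 : ∀ i, i ∉ Set.range e → ρ ((x i : K) / x (e k₀)) = 0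
  g_mem : ∀ k, (g (e k) : K) / g (e k₀) ∈ O
  ρ_g : ∀ k, ρ ((g (e k) : K) / g (e k₀)) = γ k

/-- `L` has degree `≥ 0` on all curves. -/
def CN (x g : ι → Kˣ) : Prop :=
  ∀ (F κ : Type) [Field F] [Algebra ℂ F] [Fintype κ] (y γ : κ → Fˣ),
    Nonempty (Sp x g y γ) → Algebra.trdeg ℂ F = 1 → DegNN y γ

/-- An embedding `x'` of `X` whose charts are principal open subsets of the charts of `x` on which
`L` is trivial, with generator `g'`. Its hyperplane class is `k H`. -/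
structure Emb {N : ℕ} {x : Fin N → Kˣ} (L : Prm x →₀ ℤ) (κ : Type) where
  x' : κ → Kˣ
  g' : κ → Kˣ
  k₀ : κ
  j : κ → Fin N
  k : ℕ
  u : Kˣ
  one : x' k₀ = 1
  kpos : 0 < k
  loc : ∀ a, Loc (chart x (j a)) (chart x' a)
  eqn : ∀ a (w : Prm x), PrimeDiv (chart x' a) w.1 → w.1 (g' a : K) = exp (L w)
  cart : Cart x' g'
  sec : ∀ (t a : ℕ) (s : K), Sec x' g' t a s ↔ s * (u : K) ^ a ∈ Tw (t • L) (k * a)

end Pool.Agent.Lib.MP_bc213e_ag.OW
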